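import Pool.Agent.H94.CB.M07

/-!
# EF PNDefs: holomorphic maps from a projective surface to a complex torus
-/

set_option autoImplicit false

open Topology Filter MvPolynomial

noncomputable section

namespace Pool.Agent.H17EF

open Pool.Agent.H17 (PN VanishesAt HolomorphicInto)

variable {N : ℕ}

/-- The closed subvariety of `ℙ^N` given by the homogeneous ideal `P`. -/
def projVar (P : Ideal (MvPolynomial (Fin (N + 1)) ℂ)) : Set (PN N) :=
  {x | ∀ Q ∈ P, ∀ n, Q.IsHomogeneous n → VanishesAt Q x}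

/-- `u` is a holomorphic map from the closed subset `X` of `ℙ^N` to `ℂ / Λ`: near every point it is given by a holomorphic function of the
homogeneous coordinates. -/
def IsHolomorphicMap (X : Set (PN N)) (Λ : AddSubgroup ℂ) (u : PN N → ℂ ⧸ Λ) : Prop :=
  ∀ (x : Fin (N + 1) → ℂ) (hx : x ≠ 0), Projectivization.mk ℂ x hx ∈ X → ∃ v : (Fin (N + 1) → ℂ) → ℂ, AnalyticAt ℂ v x ∧
    ∀ᶠ y in 𝓝 x, ∀ hy : y ≠ 0, Projectivization.mk ℂ y hy ∈ X → u (Projectivization.mk ℂ y hy) = (v y : ℂ ⧸ Λ)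

/-- The entire curves `f` in `X` with `u (f z) = z` modulo `Λ`. -/
def sections (X : Set (PN N)) (Λ : AddSubgroup ℂ) (u : PN N → ℂ ⧸ Λ) : Set (ℂ → PN N) :=
  {f | HolomorphicInto f Set.univ ∧ (∀ z, f z ∈ X) ∧ ∀ z, u (f z) = (z : ℂ ⧸ Λ)}

end Pool.Agent.H17EF
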