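import Pool.Agent.H94.CB.H13.SM.Surf
import Pool.Agent.H94.CB.H17EF.PNDefs
import Pool.Agent.H94.CB.M09
import Pool.Agent.H94.CB.M15
import Pool.Agent.H94.CB.M17
import Pool.Agent.H94.CB.M74

/-!
# EF Bridge: from the projective space to the cone
-/

set_option autoImplicit false

open Topology Filter MvPolynomial Metric

noncomputable section

namespace Pool.Agent.H17EF

open Pool.Agent.H17 (PN VanishesAt HolomorphicInto ZariskiClosedIn)
open Pool.Agent.H62.FC (Homog)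
open Pool.Agent.H62.EF
open Pool.Agent.H17BP (Surface IsChart IsForm NoZeros)
open Pool.Agent.H17LG.Variety (FunField IsLogGeneralType)
open Pool.Agent.H13.SM (conTan cone)
open Pool.Agent.H36.BP (EN fs wd formT isCone_transport germ_transport tan_transport)
open Pool.Agent.H14.PP (IsCone Chart Form)

variable {N : ℕ}

/-- homogeneous coordinates as a Euclidean vector -/
def LE (N : ℕ) : (Fin (N + 1) → ℂ) ≃L[ℂ] EN N := (EuclideanSpace.equiv (Fin (N + 1)) ℂ).symm

/-- the cone in the Euclidean space -/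
def coneE (P : Ideal (MvPolynomial (Fin (N + 1)) ℂ)) : Set (EN N) := (LE N).symm ⁻¹' cone P

theorem mk_mem_projVar {P : Ideal (MvPolynomial (Fin (N + 1)) ℂ)} (hP : Homog P) {x : Fin (N + 1) → ℂ} (hx : x ≠ 0) :
    Projectivization.mk ℂ x hx ∈ projVar P ↔ x ∈ cone P := by
  obtain ⟨a, ha, hrep⟩ := Pool.Agent.H36.BP.rep_mk hx
  constructor
  · intro h
    refine ⟨hx, fun Q hQ => ?_⟩
    rw [← MvPolynomial.sum_homogeneousComponent Q, map_sum]
    refine Finset.sum_eq_zero fun i _ => ?_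
    have h1 := h _ (hP Q hQ i) i (homogeneousComponent_isHomogeneous i Q)
    unfold VanishesAt at h1
    rw [hrep, eval_smul_form' (homogeneousComponent_isHomogeneous i Q)] at h1
    exact (mul_eq_zero.1 h1).resolve_left (pow_ne_zero i ha)
  · intro h Q hQ n hn
    unfold VanishesAt
    rw [hrep, eval_smul_form' hn, h.2 Q hQ, mul_zero]
where
  eval_smul_form' {d : ℕ} {Q : MvPolynomial (Fin (N + 1)) ℂ} (hQ : Q.IsHomogeneous d) (c : ℂ)
      (x : Fin (N + 1) → ℂ) : eval (c • x) Q = c ^ d * eval x Q := by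
    rw [MvPolynomial.eval_eq', MvPolynomial.eval_eq', Finset.mul_sum]
    apply Finset.sum_congr rfl
    intro m hm
    have hdeg : ∑ i, m i = d := by
      have := hQ (MvPolynomial.mem_support_iff.1 hm)
      rw [Finsupp.weight_apply] at this
      simpa [Finsupp.sum_fintype] using this
    have h1 : ∏ i, (c • x) i ^ m i = c ^ d * ∏ i, x i ^ m i := by
      rw [← hdeg, ← Finset.prod_pow_eq_pow_sum, ← Finset.prod_mul_distrib]
      exact Finset.prod_congr rfl fun i _ => by simp [mul_pow]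
    rw [h1]
    ring

theorem mem_coneE {P : Ideal (MvPolynomial (Fin (N + 1)) ℂ)} (hP : Homog P) {y : EN N} :
    y ∈ coneE P ↔ ∃ h : (LE N).symm y ≠ 0, Projectivization.mk ℂ ((LE N).symm y) h ∈ projVar P := by
  constructor
  · intro h
    exact ⟨h.1, (mk_mem_projVar hP h.1).2 h⟩
  · rintro ⟨h, h'⟩
    exact (mk_mem_projVar hP h).1 h'

open Classical in
/-- the map to the torus as a complex valued function on the cone -/
def uE (Λ : AddSubgroup ℂ) (u : PN N → ℂ ⧸ Λ) (y : EN N) : ℂ :=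
  if h : (LE N).symm y ≠ 0 then Quotient.out (u (Projectivization.mk ℂ ((LE N).symm y) h)) else 0

theorem uE_eq (Λ : AddSubgroup ℂ) (u : PN N → ℂ ⧸ Λ) {y : EN N} (h : (LE N).symm y ≠ 0) :
    ((uE Λ u y : ℂ) : ℂ ⧸ Λ) = u (Projectivization.mk ℂ ((LE N).symm y) h) := by
  unfold uE
  rw [dif_pos h]
  exact Quotient.out_eq _

theorem sub_mem_iff {Λ : AddSubgroup ℂ} {a b : ℂ} : a - b ∈ Λ ↔ ((a : ℂ) : ℂ ⧸ Λ) = (b : ℂ ⧸ Λ) := by
  rw [QuotientAddGroup.eq, ← neg_mem_iff]
  constructor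
  · intro h
    convert h using 1
    ring
  · intro h
    convert h using 1
    ring

theorem torusMap {P : Ideal (MvPolynomial (Fin (N + 1)) ℂ)} (hP : Homog P) {Λ : AddSubgroup ℂ} {u : PN N → ℂ ⧸ Λ}
    (hu : IsHolomorphicMap (projVar P) Λ u) : TorusMap (coneE P) Λ (uE Λ u) := by
  constructor
  · intro x hx c hc
    have h1 : (LE N).symm x ≠ 0 := hx.1
    have h2 : (LE N).symm (c • x) ≠ 0 := by
      rw [map_smul]
      exact smul_ne_zero hc h1
    rw [sub_mem_iff, uE_eq Λ u h1, uE_eq Λ u h2]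
    congr 1
    rw [Projectivization.mk_eq_mk_iff']
    exact ⟨c, (map_smul _ _ _).symm⟩
  · intro x hx
    obtain ⟨h1, h2⟩ := (mem_coneE hP).1 hx
    obtain ⟨v, hv, hv'⟩ := hu _ h1 h2
    refine ⟨fun y => v ((LE N).symm y), ?_, ?_⟩
    · exact AnalyticAt.comp (g := v) (f := fun y : EN N => (LE N).symm y) hv (((LE N).symm : EN N →L[ℂ] (Fin (N + 1) → ℂ)).analyticAt x)
    · have h3 : Tendsto (fun y : EN N => (LE N).symm y) (𝓝 x) (𝓝 ((LE N).symm x)) := (LE N).symm.continuous.tendsto x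
      filter_upwards [h3.eventually hv'] with y hy hyX
      obtain ⟨h4, h5⟩ := (mem_coneE hP).1 hyX
      rw [sub_mem_iff, uE_eq Λ u h4]
      exact hy h4 h5

theorem charts {P : Ideal (MvPolynomial (Fin (N + 1)) ℂ)} (hS : Surface (cone P)) : Charts (coneE P) := by
  intro x hx
  obtain ⟨σ, τ, hc, h0⟩ := hS.chart ((LE N).symm x) hx
  have hg := germ_transport (LE N) hc
  obtain ⟨χ, h1, h2⟩ := exists_chart_of_germ (isCone_transport (LE N) hS) hg
  have h3 : (LE N) (σ 0) = x := by rw [h0, ContinuousLinearEquiv.apply_symm_apply]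
  rw [h3] at h1 h2
  exact ⟨χ, h1, h2⟩

/-- the point of `ℙ^N` -/
theorem holomorphicInto_of_lift {F : ℂ → EN N} (hF : Differentiable ℂ F) (h0 : ∀ z, (LE N).symm (F z) ≠ 0) :
    HolomorphicInto (fun z => Projectivization.mk ℂ ((LE N).symm (F z)) (h0 z)) Set.univ := by
  intro z _
  refine ⟨fun z => (LE N).symm (F z), (((LE N).symm : EN N →L[ℂ] (Fin (N + 1) → ℂ)).analyticAt _).comp (hF.analyticAt z), ?_⟩
  exact Eventually.of_forall fun w => ⟨h0 w, rfl⟩

/-- a lift -/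
theorem exists_lift {f : ℂ → PN N} (hf : HolomorphicInto f Set.univ) :
    ∃ F : ℂ → EN N, Differentiable ℂ F ∧ ∀ z, ∃ h : (LE N).symm (F z) ≠ 0, f z = Projectivization.mk ℂ ((LE N).symm (F z)) h := by
  obtain ⟨x, hx⟩ := Pool.Agent.H17.exists_global_lift hf
  refine ⟨fun z => (LE N) (fun j => (x j : ℂ → ℂ) z), ?_, fun z => ?_⟩
  · have h1 : Differentiable ℂ fun z => fun j => (x j : ℂ → ℂ) z := differentiable_pi.2 fun j => (x j).2
    exact (LE N).differentiable.comp h1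
  · obtain ⟨h, h'⟩ := hx z
    have h2 : (LE N).symm ((LE N) (fun j => (x j : ℂ → ℂ) z)) = fun j => (x j : ℂ → ℂ) z := ContinuousLinearEquiv.symm_apply_apply _ _
    refine ⟨by rw [h2]; exact h, ?_⟩
    rw [h']
    congr 1

/-- the lattice generated by two independent vectors -/
theorem lat_of_basis {w : Fin 2 → ℂ} (hw : LinearIndependent ℝ w) : Lat (AddSubgroup.closure (Set.range w)) := by
  have hmem : ∀ l, l ∈ AddSubgroup.closure (Set.range w) ↔ ∃ a b : ℤ, l = (a : ℂ) * w 0 + (b : ℂ) * w 1 := by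
    intro l
    have hr : Set.range w = {w 0, w 1} := by
      ext x
      simp only [Set.mem_range, Set.mem_insert_iff, Set.mem_singleton_iff]
      constructor
      · rintro ⟨i, rfl⟩
        fin_cases i
        · exact Or.inl rfl
        · exact Or.inr rfl
      · rintro (rfl | rfl)
        · exact ⟨0, rfl⟩
        · exact ⟨1, rfl⟩
    rw [hr, AddSubgroup.mem_closure_pair]
    simp only [zsmul_eq_mul]
    constructor
    · rintro ⟨a, b, h⟩
      exact ⟨a, b, h.symm⟩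
    · rintro ⟨a, b, h⟩
      exact ⟨a, b, h.symm⟩
  have hcard : Fintype.card (Fin 2) = Module.finrank ℝ ℂ := by rw [Complex.finrank_real_complex]; rfl
  let B : Module.Basis (Fin 2) ℝ ℂ := basisOfLinearIndependentOfCardEqFinrank hw hcard
  have hB : ∀ i, B i = w i := fun i => by simp [B]
  constructor
  · -- discrete
    let e : ℂ ≃L[ℝ] (Fin 2 → ℝ) := B.equivFunL
    obtain ⟨C, hC, hCe⟩ : ∃ C : ℝ, 0 < C ∧ ∀ x, ‖e x‖ ≤ C * ‖x‖ := by
      refine ⟨‖(e : ℂ →L[ℝ] (Fin 2 → ℝ))‖ + 1, by positivity, fun x => ?_⟩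
      refine ((e : ℂ →L[ℝ] (Fin 2 → ℝ)).le_opNorm x).trans ?_
      exact mul_le_mul_of_nonneg_right (by linarith) (norm_nonneg x)
    refine ⟨1 / C, by positivity, fun l hl hlt => ?_⟩
    obtain ⟨a, b, rfl⟩ := (hmem l).1 hl
    have h1 : e ((a : ℂ) * w 0 + (b : ℂ) * w 1) = ![(a : ℝ), (b : ℝ)] := by
      have h2 : (a : ℂ) * w 0 + (b : ℂ) * w 1 = (a : ℝ) • B 0 + (b : ℝ) • B 1 := by
        rw [hB, hB]
        simp
      rw [h2, map_add, map_smul, map_smul]
      have h3 : ∀ i, e (B i) = Pi.single i 1 := by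
        intro i
        ext j
        simp [e, Finsupp.single_apply, Pi.single_apply, eq_comm]
      rw [h3, h3]
      ext j
      fin_cases j <;> simp
    have h4 := hCe ((a : ℂ) * w 0 + (b : ℂ) * w 1)
    rw [h1] at h4
    have h5 : C * ‖(a : ℂ) * w 0 + (b : ℂ) * w 1‖ < 1 := by
      rw [lt_div_iff₀ hC] at hlt
      linarith
    have h6 : ‖![(a : ℝ), (b : ℝ)]‖ < 1 := lt_of_le_of_lt h4 h5
    have ha : |(a : ℝ)| < 1 := lt_of_le_of_lt (norm_le_pi_norm ![(a : ℝ), (b : ℝ)] 0) h6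
    have hb : |(b : ℝ)| < 1 := lt_of_le_of_lt (norm_le_pi_norm ![(a : ℝ), (b : ℝ)] 1) h6
    have ha' : a = 0 := by
      have : |a| < 1 := by exact_mod_cast ha
      exact Int.abs_lt_one_iff.1 this
    have hb' : b = 0 := by
      have : |b| < 1 := by exact_mod_cast hb
      exact Int.abs_lt_one_iff.1 this
    rw [ha', hb']
    simp
  · -- cocompact
    refine ⟨‖w 0‖ + ‖w 1‖ + 1, by positivity, fun z => ?_⟩
    refine ⟨((⌊B.repr z 0⌋ : ℤ) : ℂ) * w 0 + ((⌊B.repr z 1⌋ : ℤ) : ℂ) * w 1, (hmem _).2 ⟨_, _, rfl⟩, ?_⟩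
    have h1 : z = (B.repr z 0) • w 0 + (B.repr z 1) • w 1 := by
      conv_lhs => rw [← B.sum_repr z]
      rw [Fin.sum_univ_two, hB, hB]
    have h2 : z - (((⌊B.repr z 0⌋ : ℤ) : ℂ) * w 0 + ((⌊B.repr z 1⌋ : ℤ) : ℂ) * w 1) =
        (Int.fract (B.repr z 0)) • w 0 + (Int.fract (B.repr z 1)) • w 1 := by
      have h4 : z = ((B.repr z 0 : ℝ) : ℂ) * w 0 + ((B.repr z 1 : ℝ) : ℂ) * w 1 := by
        rw [← Complex.real_smul, ← Complex.real_smul]
        exact h1
      rw [← Int.self_sub_floor, ← Int.self_sub_floor]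
      simp only [Complex.real_smul]
      push_cast
      linear_combination h4
    rw [h2]
    have h3 : ∀ t : ℝ, ∀ v : ℂ, ‖(Int.fract t) • v‖ ≤ ‖v‖ := by
      intro t v
      rw [norm_smul, Real.norm_of_nonneg (Int.fract_nonneg t)]
      exact mul_le_of_le_one_left (norm_nonneg v) (Int.fract_lt_one t).le
    calc _ ≤ ‖(Int.fract (B.repr z 0)) • w 0‖ + ‖(Int.fract (B.repr z 1)) • w 1‖ := norm_add_le _ _
      _ ≤ ‖w 0‖ + ‖w 1‖ := add_le_add (h3 _ _) (h3 _ _)
      _ ≤ _ := by linarith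

end Pool.Agent.H17EF
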